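import Pool.Agent.Ch4.Count2
import Pool.Agent.LibChromRoots.Zeros

/-!
# Zeros of the chromatic polynomials of rings with gaps
-/

namespace Pool.Agent.Ch4

open Metric Filter Topology Complex

/-- zeros of the closed form -/
theorem exists_zero (v0 : ℂ) (h0 : ‖v0‖ < 1) (h1 : 1 < ‖1 - v0‖) (h2 : 1 < ‖1 + v0‖) (ε : ℝ)
    (hε : 0 < ε) : ∃ (n b m : ℕ) (v : ℂ), 3 ≤ n ∧ ‖v - v0‖ < ε ∧ ‖v‖ < 1 ∧
      (1 - v) * (1 + v) ^ n * ((1 - v ^ (m + 2)) / (1 - v)) ^ b =
        1 + v - v ^ 2 - v ^ (n + b * (m + 1)) := by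
  -- the constant
  set c0 : ℂ := 1 + v0 - v0 ^ 2 with hc0
  have hc0ne : c0 ≠ 0 := by
    intro h
    have h3 : v0 ^ 2 = 1 + v0 := by rw [hc0] at h; linear_combination -h
    have h4 : ‖v0‖ ^ 2 = ‖1 + v0‖ := by rw [← norm_pow, h3]
    have h5 : ‖v0‖ ^ 2 < 1 := by
      have := norm_nonneg v0
      nlinarith
    linarith
  have hlog1 : 0 < Real.log ‖1 - v0‖ := Real.log_pos h1
  have hlog2 : 0 < Real.log ‖1 + v0‖ := Real.log_pos h2
  set t : ℝ := Real.log ‖1 + v0‖ / Real.log ‖1 - v0‖ with ht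
  have ht0 : 0 < t := div_pos hlog2 hlog1
  have hsl1 : ∀ v : ℂ, ‖v‖ < 1 → 1 + v ∈ slitPlane := fun v hv => mem_slitPlane_of_norm_lt_one hv
  have hsl2 : ∀ v : ℂ, ‖v‖ < 1 → 1 - v ∈ slitPlane := fun v hv => by
    have := mem_slitPlane_of_norm_lt_one (z := -v) (by rwa [norm_neg])
    rwa [← sub_eq_add_neg] at this
  set H : ℂ → ℂ := fun v => log (1 + v) - t * log (1 - v) with hH
  have hder : ∀ v : ℂ, ‖v‖ < 1 → HasDerivAt H (1 / (1 + v) + t * (1 / (1 - v))) v := by
    intro v hv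
    have e1 : HasDerivAt (fun v : ℂ => log (1 + v)) (1 / (1 + v)) v := by
      have := (hasDerivAt_id v).const_add (1:ℂ)
      exact this.clog (hsl1 v hv)
    have e2 : HasDerivAt (fun v : ℂ => log (1 - v)) (-1 / (1 - v)) v := by
      have := (hasDerivAt_id v).const_sub (1:ℂ)
      exact this.clog (hsl2 v hv)
    have e3 : HasDerivAt H (1 / (1 + v) - t * (-1 / (1 - v))) v := e1.sub (e2.const_mul (t : ℂ))
    have e4 : (1 / (1 + v) - t * (-1 / (1 - v)) : ℂ) = 1 / (1 + v) + t * (1 / (1 - v)) := by ring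
    rw [e4] at e3
    exact e3
  have hv1 : (1 : ℂ) + v0 ≠ 0 := slitPlane_ne_zero (hsl1 v0 h0)
  have hv2 : (1 : ℂ) - v0 ≠ 0 := slitPlane_ne_zero (hsl2 v0 h0)
  have hder0 : (1 / (1 + v0) + t * (1 / (1 - v0)) : ℂ) ≠ 0 := by
    intro h
    have h3 : (1 - v0) + t * (1 + v0) = 0 := by
      field_simp at h
      linear_combination h
    have h4 : (1 + t : ℂ) = v0 * (1 - t) := by linear_combination h3
    have h5 : (1 + t : ℝ) = ‖v0‖ * |1 - t| := by
      have := congrArg norm h4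
      rw [norm_mul] at this
      have e1 : ‖(1 + t : ℂ)‖ = 1 + t := by
        rw [show (1 + t : ℂ) = ((1 + t : ℝ) : ℂ) by push_cast; ring, norm_real,
          Real.norm_of_nonneg (by linarith)]
      have e2 : ‖(1 - t : ℂ)‖ = |1 - t| := by
        rw [show (1 - t : ℂ) = ((1 - t : ℝ) : ℂ) by push_cast; ring, norm_real, Real.norm_eq_abs]
      rw [e1, e2] at this
      exact this
    have h6 : |1 - t| ≤ 1 + t := abs_le.mpr ⟨by linarith, by linarith⟩
    have h7 := norm_nonneg v0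
    nlinarith [abs_nonneg (1 - t)]
  -- radius
  have hev1 : ∀ᶠ z in 𝓝[≠] v0, H z ≠ H v0 := (hder v0 h0).eventually_ne hder0
  rw [eventually_nhdsWithin_iff, Metric.eventually_nhds_iff] at hev1
  obtain ⟨r1, hr1, hne⟩ := hev1
  have hcontC : Continuous (fun v : ℂ => (1 + v - v ^ 2) / c0) := by fun_prop
  have hev2 := Metric.continuous_iff.mp hcontC v0 (1 / 4) (by norm_num)
  obtain ⟨r2, hr2, hC⟩ := hev2
  set ρ : ℝ := (1 + ‖v0‖) / 2 with hρ
  have hρ1 : ρ < 1 := by rw [hρ]; linarith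
  have hρ0 : 0 < ρ := by rw [hρ]; have := norm_nonneg v0; linarith
  set r : ℝ := min (min (r1 / 2) (r2 / 2)) (min (ε / 2) ((1 - ‖v0‖) / 2)) with hr
  have hr0 : 0 < r := by
    rw [hr]
    refine lt_min (lt_min (by linarith) (by linarith)) (lt_min (by linarith) (by linarith))
  have hrr1 : r < r1 := by
    have := (min_le_left (min (r1 / 2) (r2 / 2)) (min (ε / 2) ((1 - ‖v0‖) / 2))).trans
      (min_le_left _ _)
    linarith
  have hrr2 : r < r2 := by
    have := (min_le_left (min (r1 / 2) (r2 / 2)) (min (ε / 2) ((1 - ‖v0‖) / 2))).trans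
      (min_le_right _ _)
    linarith
  have hrε : r < ε := by
    have := (min_le_right (min (r1 / 2) (r2 / 2)) (min (ε / 2) ((1 - ‖v0‖) / 2))).trans
      (min_le_left _ _)
    linarith
  have hrρ : r ≤ (1 - ‖v0‖) / 2 := (min_le_right (min (r1 / 2) (r2 / 2))
      (min (ε / 2) ((1 - ‖v0‖) / 2))).trans (min_le_right _ _)
  have hball : ∀ v ∈ closedBall v0 r, ‖v‖ ≤ ρ := by
    intro v hv
    rw [mem_closedBall, dist_eq_norm] at hv
    have : ‖v‖ ≤ ‖v - v0‖ + ‖v0‖ := by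
      calc ‖v‖ = ‖(v - v0) + v0‖ := by congr 1; ring
        _ ≤ _ := norm_add_le _ _
    rw [hρ]; linarith
  have hball1 : ∀ v ∈ closedBall v0 r, ‖v‖ < 1 := fun v hv => lt_of_le_of_lt (hball v hv) hρ1
  have hHcont : ContinuousOn H (closedBall v0 r) := fun v hv =>
    (hder v (hball1 v hv)).continuousAt.continuousWithinAt
  have hcomp : IsCompact (sphere v0 r) := isCompact_sphere v0 r
  have hnes : (sphere v0 r).Nonempty := (NormedSpace.sphere_nonempty).2 hr0.le
  obtain ⟨z1, hz1, hmin⟩ := hcomp.exists_isMinOn hnes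
    ((hHcont.mono sphere_subset_closedBall).sub (continuousOn_const (c := H v0))).norm
  set c : ℝ := ‖H z1 - H v0‖ with hc
  have hcpos : 0 < c := by
    rw [hc, norm_pos_iff, sub_ne_zero]
    rw [mem_sphere] at hz1
    refine hne (by rw [hz1]; exact hrr1) ?_
    rintro rfl
    simp at hz1
    linarith
  have hmin' : ∀ z ∈ sphere v0 r, c ≤ ‖H z - H v0‖ := fun z hz => hmin hz
  -- bound of the logarithm
  obtain ⟨M, hM⟩ := (isCompact_closedBall v0 r).exists_bound_of_continuousOn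
    (f := fun v => log (1 - v)) (fun v hv => by
      have e2 : HasDerivAt (fun v : ℂ => log (1 - v)) (-1 / (1 - v)) v := by
        have := (hasDerivAt_id v).const_sub (1:ℂ)
        exact this.clog (hsl2 v (hball1 v hv))
      exact e2.continuousAt.continuousWithinAt)
  have hM0 : 0 ≤ M := (norm_nonneg _).trans (hM v0 (mem_closedBall_self hr0.le))
  -- choice of m
  obtain ⟨m, hm⟩ : ∃ m : ℕ, ρ ^ m < min (1 / 2) (c / (64 * t)) :=
    exists_pow_lt_of_lt_one (lt_min (by norm_num) (by positivity)) hρ1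
  have hm1 : ρ ^ (m + 2) ≤ 1 / 2 := by
    have h3 : ρ ^ (m + 2) ≤ ρ ^ m := pow_le_pow_of_le_one hρ0.le hρ1.le (by omega)
    have h4 := min_le_left (1 / 2) (c / (64 * t))
    linarith
  have hm2 : t * (2 * ρ ^ (m + 2)) ≤ c / 32 := by
    have h3 : ρ ^ (m + 2) ≤ ρ ^ m := pow_le_pow_of_le_one hρ0.le hρ1.le (by omega)
    have h4 := min_le_right (1 / 2) (c / (64 * t))
    have h5 : ρ ^ (m + 2) ≤ c / (64 * t) := by linarith
    rw [le_div_iff₀ (by positivity)] at h5
    linarith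
  -- choice of n
  set K : ℝ := 2 * M + 1 + ‖log c0‖ with hK
  have hK0 : 0 < K := by have := norm_nonneg (log c0); rw [hK]; linarith
  obtain ⟨n1, hn1⟩ := exists_nat_gt (32 * K / c)
  obtain ⟨n2, hn2⟩ := exists_nat_gt (8 * Real.pi / c)
  obtain ⟨n3, hn3⟩ := exists_pow_lt_of_lt_one (show (0:ℝ) < ‖c0‖ / 4 by positivity) hρ1
  set n : ℕ := n1 + n2 + n3 + 3 with hn
  have hnR : (0 : ℝ) < n := by rw [hn]; positivity
  have hnn1 : (n1 : ℝ) ≤ n := by rw [hn]; push_cast; linarith [Nat.cast_nonneg (α := ℝ) n2, Nat.cast_nonneg (α := ℝ) n3]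
  have hnn2 : (n2 : ℝ) ≤ n := by rw [hn]; push_cast; linarith [Nat.cast_nonneg (α := ℝ) n1, Nat.cast_nonneg (α := ℝ) n3]
  have hKn : K / n ≤ c / 32 := by
    rw [div_le_div_iff₀ hnR (by norm_num)]
    have : 32 * K / c < n := lt_of_lt_of_le hn1 hnn1
    rw [div_lt_iff₀ hcpos] at this
    linarith
  have hπn : Real.pi / n ≤ c / 8 := by
    rw [div_le_div_iff₀ hnR (by norm_num)]
    have : 8 * Real.pi / c < n := lt_of_lt_of_le hn2 hnn2
    rw [div_lt_iff₀ hcpos] at this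
    linarith
  set b : ℕ := ⌊t * n⌋₊ with hb
  have hb1 : (b : ℝ) ≤ t * n := Nat.floor_le (by positivity)
  have hb2 : t * n < b + 1 := Nat.lt_floor_add_one _
  set N : ℕ := n + b * (m + 1) with hN
  have hpowN : ∀ v ∈ closedBall v0 r, ‖v ^ N / c0‖ ≤ 1 / 4 := by
    intro v hv
    rw [norm_div, norm_pow, div_le_iff₀ (norm_pos_iff.mpr hc0ne)]
    calc ‖v‖ ^ N ≤ ρ ^ N := by gcongr; exact hball v hv
      _ ≤ ρ ^ n3 := pow_le_pow_of_le_one hρ0.le hρ1.le (by omega)
      _ ≤ _ := by linarith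
  have hCm : ∀ v ∈ closedBall v0 r, ‖(1 + v - v ^ 2 - v ^ N) / c0 - 1‖ < 1 / 2 := by
    intro v hv
    have e1 := hC v (by rw [mem_closedBall] at hv; linarith)
    rw [dist_eq_norm] at e1
    have e2 : (1 + v0 - v0 ^ 2) / c0 = 1 := div_self hc0ne
    rw [e2] at e1
    have e3 := hpowN v hv
    calc ‖(1 + v - v ^ 2 - v ^ N) / c0 - 1‖ = ‖((1 + v - v ^ 2) / c0 - 1) - v ^ N / c0‖ := by
          congr 1; ring
      _ ≤ ‖(1 + v - v ^ 2) / c0 - 1‖ + ‖v ^ N / c0‖ := norm_sub_le _ _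
      _ < _ := by linarith
  -- the function
  set Ψ : ℂ → ℂ := fun v => log (1 + v) - (b / n : ℂ) * log (1 - v) + (b / n : ℂ) *
    log (1 - v ^ (m + 2)) + (1 / n : ℂ) * (log (1 - v) - log ((1 + v - v ^ 2 - v ^ N) / c0) -
      log c0) with hΨ
  have hvm : ∀ v ∈ closedBall v0 r, ‖v ^ (m + 2)‖ ≤ ρ ^ (m + 2) := by
    intro v hv
    rw [norm_pow]
    have := hball v hv
    gcongr
  have hlogm : ∀ v ∈ closedBall v0 r, ‖log (1 - v ^ (m + 2))‖ ≤ 2 * ρ ^ (m + 2) := by
    intro v hv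
    have e1 := hvm v hv
    have e2 := norm_log_one_add_half_le_self (z := -v ^ (m + 2)) (by rw [norm_neg]; linarith)
    rw [← sub_eq_add_neg, norm_neg] at e2
    have e3 := norm_nonneg (v ^ (m + 2))
    linarith
  have hclose : ∀ v ∈ closedBall v0 r, ‖Ψ v - H v‖ ≤ c / 8 := by
    intro v hv
    have e0 : Ψ v - H v = ((t - b / n : ℝ) : ℂ) * log (1 - v) + (b / n : ℂ) *
      log (1 - v ^ (m + 2)) + (1 / n : ℂ) * (log (1 - v) - log ((1 + v - v ^ 2 - v ^ N) / c0) -
      log c0) := by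
      simp only [hΨ, hH]; push_cast; ring
    have e1 : |t - b / n| ≤ 1 / n := by
      rw [abs_le]
      have h3 : (b : ℝ) / n ≤ t := by rw [div_le_iff₀ hnR]; exact hb1
      have h4 : t ≤ (b : ℝ) / n + 1 / n := by
        rw [← add_div, le_div_iff₀ hnR]; exact hb2.le
      constructor <;> linarith
    have e2 : ‖(b / n : ℂ)‖ ≤ t := by
      rw [norm_div, Complex.norm_natCast, Complex.norm_natCast, div_le_iff₀ hnR]; exact hb1
    have e3 : ‖(1 / n : ℂ)‖ = 1 / n := by rw [norm_div, norm_one, Complex.norm_natCast]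
    have e4 := hM v hv
    have e5 := hlogm v hv
    have e6 := LibChromRoots.norm_log_near (hCm v hv)
    rw [e0]
    have e7 : ‖((t - b / n : ℝ) : ℂ) * log (1 - v)‖ ≤ 1 / n * M := by
      rw [norm_mul, norm_real, Real.norm_eq_abs]
      exact mul_le_mul e1 e4 (norm_nonneg _) (by positivity)
    have e8 : ‖(b / n : ℂ) * log (1 - v ^ (m + 2))‖ ≤ t * (2 * ρ ^ (m + 2)) := by
      rw [norm_mul]
      exact mul_le_mul e2 e5 (norm_nonneg _) ht0.le
    have e9 : ‖(1 / n : ℂ) * (log (1 - v) - log ((1 + v - v ^ 2 - v ^ N) / c0) - log c0)‖ ≤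
        1 / n * (M + 1 + ‖log c0‖) := by
      rw [norm_mul, e3]
      gcongr
      calc _ ≤ ‖log (1 - v) - log ((1 + v - v ^ 2 - v ^ N) / c0)‖ + ‖log c0‖ := norm_sub_le _ _
        _ ≤ ‖log (1 - v)‖ + ‖log ((1 + v - v ^ 2 - v ^ N) / c0)‖ + ‖log c0‖ := by
            gcongr; exact norm_sub_le _ _
        _ ≤ _ := by linarith
    calc _ ≤ 1 / n * M + t * (2 * ρ ^ (m + 2)) + 1 / n * (M + 1 + ‖log c0‖) := by
          refine (norm_add_le _ _).trans (add_le_add ((norm_add_le _ _).trans (add_le_add e7 e8)) e9)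
      _ = K / n + t * (2 * ρ ^ (m + 2)) := by rw [hK]; ring
      _ ≤ c / 32 + c / 32 := add_le_add hKn hm2
      _ ≤ c / 8 := by linarith
  have hdiff : DiffContOnCl ℂ Ψ (ball v0 r) := by
    apply DifferentiableOn.diffContOnCl
    rw [closure_ball v0 hr0.ne']
    intro v hv
    apply DifferentiableAt.differentiableWithinAt
    have d1 : DifferentiableAt ℂ (fun v : ℂ => log (1 + v)) v :=
      DifferentiableAt.clog (by fun_prop) (hsl1 v (hball1 v hv))
    have d2 : DifferentiableAt ℂ (fun v : ℂ => log (1 - v)) v :=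
      DifferentiableAt.clog (by fun_prop) (hsl2 v (hball1 v hv))
    have d3 : DifferentiableAt ℂ (fun v : ℂ => log (1 - v ^ (m + 2))) v :=
      DifferentiableAt.clog (by fun_prop) (hsl2 _ (by
        have := hvm v hv
        have : ρ ^ (m + 2) < 1 := by linarith
        linarith))
    have d4 : DifferentiableAt ℂ (fun v : ℂ => log ((1 + v - v ^ 2 - v ^ N) / c0)) v :=
      DifferentiableAt.clog (by fun_prop) (LibChromRoots.mem_slit (hCm v hv))
    exact (((d1.sub (d2.const_mul _)).add (d3.const_mul _)).add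
      (((d2.sub d4).sub (differentiableAt_const _)).const_mul _))
  have hcen : v0 ∈ closedBall v0 r := mem_closedBall_self hr0.le
  have hs : ∀ z ∈ sphere v0 r, 3 * c / 4 ≤ ‖Ψ z - Ψ v0‖ := by
    intro z hz
    have e1 := hmin' z hz
    have e2 := hclose z (sphere_subset_closedBall hz)
    have e3 := hclose v0 hcen
    have e4 : ‖H z - H v0‖ ≤ ‖Ψ z - H z‖ + ‖Ψ z - Ψ v0‖ + ‖Ψ v0 - H v0‖ := by
      have : H z - H v0 = -(Ψ z - H z) + (Ψ z - Ψ v0) + (Ψ v0 - H v0) := by ring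
      rw [this]
      refine (norm_add₃_le).trans ?_
      rw [norm_neg]
    linarith
  have hfr : ∃ᶠ z in 𝓝 v0, Ψ z ≠ Ψ v0 := by
    intro hcon
    have hcon' : ∀ᶠ z in 𝓝 v0, Ψ z = (fun _ => Ψ v0) z := by
      filter_upwards [hcon] with z hz
      simpa using hz
    have han : AnalyticOnNhd ℂ Ψ (ball v0 r) :=
      hdiff.differentiableOn.analyticOnNhd isOpen_ball
    have heq : Set.EqOn Ψ (fun _ => Ψ v0) (ball v0 r) :=
      han.eqOn_of_preconnected_of_eventuallyEq analyticOnNhd_const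
        (convex_ball v0 r).isPreconnected (mem_ball_self hr0) hcon'
    have hcl : Set.EqOn Ψ (fun _ => Ψ v0) (closure (ball v0 r)) := by
      intro z hz
      have hcc : IsClosed (closure (ball v0 r) ∩ Ψ ⁻¹' {Ψ v0}) :=
        hdiff.continuousOn.preimage_isClosed_of_isClosed isClosed_closure
          (isClosed_singleton (x := Ψ v0))
      have hsub : closure (ball v0 r) ⊆ closure (ball v0 r) ∩ Ψ ⁻¹' {Ψ v0} :=
        closure_minimal (fun w hw => ⟨subset_closure hw, heq hw⟩) hcc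
      exact (hsub hz).2
    have h5 := hs z1 hz1
    have h6 : Ψ z1 = Ψ v0 := by
      apply hcl
      rw [closure_ball v0 hr0.ne']
      exact sphere_subset_closedBall hz1
    rw [h6, sub_self, norm_zero] at h5
    linarith
  have hsub := hdiff.ball_subset_image_closedBall hr0 hs hfr
  -- the target value
  set k : ℤ := round ((Ψ v0).im * n / (2 * Real.pi)) with hk
  have hpi := Real.pi_pos
  have hk1 : |(Ψ v0).im - 2 * Real.pi * k / n| ≤ Real.pi / n := by
    have e1 := abs_sub_round ((Ψ v0).im * n / (2 * Real.pi))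
    rw [← hk] at e1
    have e2 : (Ψ v0).im - 2 * Real.pi * k / n =
        ((Ψ v0).im * n / (2 * Real.pi) - k) * (2 * Real.pi / n) := by
      field_simp
    rw [e2, abs_mul, abs_of_pos (show (0:ℝ) < 2 * Real.pi / n by positivity)]
    calc _ ≤ 1 / 2 * (2 * Real.pi / n) := by gcongr
      _ = _ := by ring
  have hre : |(Ψ v0).re| ≤ c / 8 := by
    have e1 : (H v0).re = 0 := by
      simp only [hH]
      rw [sub_re, re_ofReal_mul, log_re, log_re, ht, div_mul_cancel₀ _ hlog1.ne', sub_self]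
    have e2 := (abs_re_le_norm (Ψ v0 - H v0)).trans (hclose v0 hcen)
    rw [sub_re, e1, sub_zero] at e2
    exact e2
  have htarget : (2 * Real.pi * k / n : ℝ) * I ∈ ball (Ψ v0) (3 * c / 4 / 2) := by
    rw [mem_ball, dist_comm, dist_eq_norm]
    have e1 := norm_le_abs_re_add_abs_im (Ψ v0 - ((2 * Real.pi * k / n : ℝ) : ℂ) * I)
    have e2 : (Ψ v0 - ((2 * Real.pi * k / n : ℝ) : ℂ) * I).re = (Ψ v0).re := by
      rw [sub_re, re_ofReal_mul, I_re, mul_zero, sub_zero]
    have e3 : (Ψ v0 - ((2 * Real.pi * k / n : ℝ) : ℂ) * I).im =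
        (Ψ v0).im - 2 * Real.pi * k / n := by
      rw [sub_im, im_ofReal_mul, I_im, mul_one]
    rw [e2, e3] at e1
    linarith
  obtain ⟨v, hv, hv'⟩ := hsub htarget
  refine ⟨n, b, m, v, by omega, ?_, hball1 v hv, ?_⟩
  · rw [mem_closedBall, dist_eq_norm] at hv
    linarith
  · have hnC : (n : ℂ) ≠ 0 := by exact_mod_cast hnR.ne'
    have e1 : (n : ℂ) * Ψ v = k * (2 * Real.pi * I) := by
      rw [hv']; push_cast; field_simp
    have e2 : (n : ℂ) * Ψ v = n * log (1 + v) - b * log (1 - v) + b * log (1 - v ^ (m + 2)) +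
        (log (1 - v) - log ((1 + v - v ^ 2 - v ^ N) / c0) - log c0) := by
      simp only [hΨ]; field_simp
    have e3 : exp ((n : ℂ) * Ψ v) = 1 := by rw [e1]; exact exp_int_mul_two_pi_mul_I k
    have g1 : (1 : ℂ) + v ≠ 0 := slitPlane_ne_zero (hsl1 v (hball1 v hv))
    have g2 : (1 : ℂ) - v ≠ 0 := slitPlane_ne_zero (hsl2 v (hball1 v hv))
    have g3 : (1 : ℂ) - v ^ (m + 2) ≠ 0 := by
      intro h
      have h3 : v ^ (m + 2) = 1 := by linear_combination -h
      have h4 := hvm v hv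
      rw [h3, norm_one] at h4
      linarith
    have g4 : (1 + v - v ^ 2 - v ^ N) / c0 ≠ 0 := by
      intro h
      have h4 := hCm v hv
      rw [h] at h4
      norm_num at h4
    rw [e2] at e3
    rw [exp_add, exp_add, exp_sub, exp_sub, exp_sub, exp_nat_mul, exp_nat_mul, exp_nat_mul,
      exp_log g1, exp_log g2, exp_log g3, exp_log g4, exp_log hc0ne] at e3
    have g5 : (1 + v - v ^ 2 - v ^ N) ≠ 0 := by
      intro h
      rw [h] at g4
      simp at g4
    rw [div_pow]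
    field_simp at e3 ⊢
    linear_combination e3

end Pool.Agent.Ch4
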