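import Pool.Agent.Ch4.Defs
import Pool.Agent.Ch3.Stmt

/-!
# The ring graph is 3-connected
-/

namespace Pool.Agent.Ch4

open Classical

variable {s : List Bool} {T : Finset (V s)}

/-- connected in the complement of `T` -/
def Rch (T : Finset (V s)) (x y : V s) : Prop :=
  ∃ (hx : x ∈ ((↑T : Set (V s))ᶜ)) (hy : y ∈ ((↑T : Set (V s))ᶜ)),
    ((G s).induce ((↑T : Set (V s))ᶜ)).Reachable ⟨x, hx⟩ ⟨y, hy⟩

lemma Rch.symm {x y : V s} (h : Rch T x y) : Rch T y x := by
  obtain ⟨h1, h2, h3⟩ := h
  exact ⟨h2, h1, h3.symm⟩

lemma Rch.trans {x y z : V s} (h : Rch T x y) (h' : Rch T y z) : Rch T x z := by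
  obtain ⟨h1, h2, h3⟩ := h
  obtain ⟨h4, h5, h6⟩ := h'
  exact ⟨h1, h5, h3.trans h6⟩

lemma Rch.refl {x : V s} (h : x ∉ T) : Rch T x x :=
  ⟨by simpa using h, by simpa using h, SimpleGraph.Reachable.refl _⟩

lemma Rch.step (hs : s ≠ []) {x y : V s} (h : rel s x y) (hx : x ∉ T) (hy : y ∉ T) :
    Rch T x y := by
  refine ⟨by simpa using hx, by simpa using hy, ?_⟩
  apply SimpleGraph.Adj.reachable
  simp only [SimpleGraph.induce_adj]
  rw [G_adj s hs]
  exact Or.inl h

lemma three {U : Type} {T : Finset U} (hT : T.card ≤ 2) {a b c : U} (hab : a ≠ b) (hac : a ≠ c)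
    (hbc : b ≠ c) : a ∉ T ∨ b ∉ T ∨ c ∉ T := by
  by_contra hcon
  push Not at hcon
  obtain ⟨h1, h2, h3⟩ := hcon
  have h4 : ({a, b, c} : Finset U) ⊆ T := by
    intro x hx
    simp only [Finset.mem_insert, Finset.mem_singleton] at hx
    rcases hx with rfl | rfl | rfl
    · exact h1
    · exact h2
    · exact h3
  have h5 := Finset.card_le_card h4
  rw [Finset.card_eq_three.mpr ⟨a, b, c, hab, hac, hbc, rfl⟩] at h5
  omega

/-- walk along the ring -/
lemma walk (hs : s ≠ []) (i : ℕ) : ∀ (d : ℕ) (hd : i + d < s.length + 1),
    (∀ k (hk : k < s.length + 1), i ≤ k → k ≤ i + d → (.inr ⟨k, hk⟩ : V s) ∉ T) →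
    Rch T (.inr ⟨i, by omega⟩) (.inr ⟨i + d, hd⟩) := by
  intro d
  induction d with
  | zero =>
    intro hd h
    exact Rch.refl (h i (by omega) le_rfl (by omega))
  | succ d ih =>
    intro hd h
    have h1 := ih (by omega) (fun k hk h1 h2 => h k hk h1 (by omega))
    refine h1.trans (Rch.step hs (Or.inl ?_) (h _ _ (by omega) (by omega)) (h _ _ (by omega) le_rfl))
    simp only
    omega

theorem threeConn (i j : ℕ) (hij : i < j) (hj : j < s.length) (hi' : Xw s i) (hj' : Xw s j) :
    Ch3.ThreeConn (G s) := by
  have hs : s ≠ [] := by
    rintro rfl
    simp at hj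
  refine ⟨?_, ?_⟩
  · rw [Fintype.card_sum, Fintype.card_bool, Fintype.card_fin]
    omega
  · intro T hT
    -- three neighbours of the second hub
    set r0 : V s := .inr 0 with hr0
    set r1 : V s := .inr ⟨i + 1, by omega⟩ with hr1
    set r2 : V s := .inr ⟨j + 1, by omega⟩ with hr2
    have h01 : r0 ≠ r1 := by
      intro h
      have := congrArg Fin.val (Sum.inr_injective h)
      simp at this
    have h02 : r0 ≠ r2 := by
      intro h
      have := congrArg Fin.val (Sum.inr_injective h)
      simp at this
    have h12 : r1 ≠ r2 := by
      intro h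
      have := congrArg Fin.val (Sum.inr_injective h)
      simp at this
      omega
    have hS : (.inl true : V s) ∉ T → ∃ k : Fin (s.length + 1), (.inr k : V s) ∉ T ∧
        Rch T (.inl true) (.inr k) := by
      intro hST
      rcases three hT h01 h02 h12 with h | h | h
      · exact ⟨_, h, Rch.step hs (show rel s _ _ from trivial) hST h⟩
      · exact ⟨_, h, Rch.step hs (show rel s (.inl true) (.inr ⟨i + 1, _⟩) from hi') hST h⟩
      · exact ⟨_, h, Rch.step hs (show rel s (.inl true) (.inr ⟨j + 1, _⟩) from hj') hST h⟩
    have key : ∃ x : V s, x ∉ T ∧ ∀ y : V s, y ∉ T → Rch T x y := by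
      by_cases hN : (.inl false : V s) ∈ T
      · -- at most one ring vertex is deleted
        have huniq : ∀ a b : Fin (s.length + 1), (.inr a : V s) ∈ T → (.inr b : V s) ∈ T → a = b := by
          intro a b ha hb
          by_contra hab
          rcases three hT (a := (.inl false : V s)) (b := .inr a) (c := .inr b) (by simp) (by simp)
            (by simpa using hab) with h | h | h
          · exact h hN
          · exact h ha
          · exact h hb
        have hring : ∃ r : Fin (s.length + 1), (.inr r : V s) ∉ T ∧
            ∀ k : Fin (s.length + 1), (.inr k : V s) ∉ T → Rch T (.inr r) (.inr k) := by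
          by_cases h0 : (.inr 0 : V s) ∈ T
          · refine ⟨Fin.last _, ?_, ?_⟩
            · intro h
              have := huniq _ _ h0 h
              have := congrArg Fin.val this
              simp only [Fin.val_zero, Fin.val_last] at this
              omega
            · intro k hk
              have hk0 : k ≠ 0 := fun h => hk (h ▸ h0)
              have hk1 : 1 ≤ k.val := Nat.one_le_iff_ne_zero.mpr (fun h => hk0 (Fin.ext h))
              have hk2 := k.2
              have := walk (T := T) hs k.val (s.length - k.val) (by omega) (by
                intro l hl h1 h2 h3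
                have := congrArg Fin.val (huniq _ _ h0 h3)
                simp only [Fin.val_zero] at this
                omega)
              have e : (⟨k.val + (s.length - k.val), by omega⟩ : Fin (s.length + 1)) =
                Fin.last _ := Fin.ext (by simp only [Fin.val_last]; omega)
              rw [e] at this
              exact this.symm
          · refine ⟨0, h0, ?_⟩
            intro k hk
            have hk2 := k.2
            by_cases hlow : ∀ l (hl : l < s.length + 1), l ≤ k.val → (.inr ⟨l, hl⟩ : V s) ∉ T
            · have := walk (T := T) hs 0 k.val (by omega) (by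
                intro l hl h1 h2
                exact hlow l hl (by omega))
              have e : (⟨0 + k.val, by omega⟩ : Fin (s.length + 1)) = k := Fin.ext (by simp)
              rw [e] at this
              exact this
            · push Not at hlow
              obtain ⟨l, hl, hlk, hlT⟩ := hlow
              have hne : l ≠ k.val := by
                rintro rfl
                exact hk hlT
              have := walk (T := T) hs k.val (s.length - k.val) (by omega) (by
                intro m hm h1 h2 h3
                have := congrArg Fin.val (huniq _ _ hlT h3)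
                simp only at this
                omega)
              have e : (⟨k.val + (s.length - k.val), by omega⟩ : Fin (s.length + 1)) =
                Fin.last _ := Fin.ext (by simp only [Fin.val_last]; omega)
              rw [e] at this
              obtain ⟨-, hlast, -⟩ := id this
              have hlast' : (.inr (Fin.last _) : V s) ∉ T := by simpa using hlast
              exact (Rch.step hs (show rel s (.inr (Fin.last _)) (.inr 0) from
                Or.inr ⟨rfl, rfl⟩) hlast' h0).symm.trans this.symm
        obtain ⟨r, hr, hall⟩ := hring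
        refine ⟨.inr r, hr, ?_⟩
        intro y hy
        rcases y with b | k
        · cases b
          · exact absurd hN hy
          · obtain ⟨k, hk, hk'⟩ := hS hy
            exact (hall k hk).trans hk'.symm
        · exact hall k hy
      · refine ⟨.inl false, hN, ?_⟩
        have hNk : ∀ k : Fin (s.length + 1), (.inr k : V s) ∉ T → Rch T (.inl false) (.inr k) :=
          fun k hk => Rch.step hs (show rel s _ _ from trivial) hN hk
        intro y hy
        rcases y with b | k
        · cases b
          · exact Rch.refl hN
          · obtain ⟨k, hk, hk'⟩ := hS hy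
            exact (hNk k hk).trans hk'.symm
        · exact hNk k hy
    obtain ⟨x, hx, hall⟩ := key
    rw [SimpleGraph.connected_iff_exists_forall_reachable]
    refine ⟨⟨x, by simpa using hx⟩, ?_⟩
    rintro ⟨y, hy⟩
    obtain ⟨_, _, h⟩ := hall y (by simpa using hy)
    exact h

end Pool.Agent.Ch4
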