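import Pool.Agent.Ch4.Defs

/-!
# Counting colourings of the ring graph
-/

namespace Pool.Agent.Ch4

open Finset Classical

variable {α : Type} [Fintype α]

lemma sum_fin_succ {n : ℕ} (F : (Fin (n + 1) → α) → ℂ) :
    ∑ x, F x = ∑ x0, ∑ t : Fin n → α, F (Fin.cons x0 t) := by
  rw [← (Fin.consEquiv (fun _ => α)).sum_comp, Fintype.sum_prod_type]
  rfl

/-- good colourings of the rest of the ring: hub colours `x`, `y`, closing colour `z`, current
colour `u` -/
def OK (x y z : α) : (s : List Bool) → α → (Fin s.length → α) → Prop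
  | [], u, _ => u ≠ z
  | b :: s, u, c => u ≠ c 0 ∧ x ≠ c 0 ∧ (b = true → y ≠ c 0) ∧
      OK x y z s (c 0) (fun i => c i.succ)

/-- number of good colourings of the rest of the ring -/
noncomputable def W (x y z : α) (s : List Bool) (u : α) : ℂ :=
  ∑ c : Fin s.length → α, if OK x y z s u c then 1 else 0

lemma W_nil (x y z u : α) : W x y z [] u = if u = z then 0 else 1 := by
  unfold W OK
  by_cases h : u = z
  · simp [h]
  · simp [h]

lemma W_cons (x y z : α) (b : Bool) (s : List Bool) (u : α) :
    W x y z (b :: s) u = ∑ c : α, if u ≠ c ∧ x ≠ c ∧ (b = true → y ≠ c) then W x y z s c else 0 := by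
  rw [W]
  have h := sum_fin_succ (n := s.length) (α := α) (fun c => if OK x y z (b :: s) u c then (1:ℂ) else 0)
  refine h.trans ?_
  apply Finset.sum_congr rfl
  intro c _
  by_cases h1 : u ≠ c ∧ x ≠ c ∧ (b = true → y ≠ c)
  · rw [if_pos h1, W]
    apply Finset.sum_congr rfl
    intro t _
    congr 1
    rw [eq_iff_iff]
    constructor
    · rintro ⟨-, -, -, h2⟩
      exact h2
    · intro h2
      exact ⟨h1.1, h1.2.1, h1.2.2, h2⟩
  · rw [if_neg h1]
    apply Finset.sum_eq_zero
    intro t _
    rw [if_neg]
    rintro ⟨h2, h3, h4, -⟩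
    exact h1 ⟨h2, h3, h4⟩

/-- a function which is constant except at two places -/
lemma sum_two (g : α → ℂ) (a b : α) (C : ℂ) (hab : a ≠ b)
    (h : ∀ c, c ≠ a → c ≠ b → g c = C) :
    ∑ c, g c = g a + g b + ((Fintype.card α : ℂ) - 2) * C := by
  have h1 : ∀ c, g c = C + (if c = a then g a - C else 0) + (if c = b then g b - C else 0) := by
    intro c
    by_cases h1 : c = a
    · subst h1
      rw [if_pos rfl, if_neg hab]; ring
    · by_cases h2 : c = b
      · subst h2
        rw [if_neg h1, if_pos rfl]; ring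
      · rw [if_neg h1, if_neg h2, h c h1 h2]; ring
  rw [Finset.sum_congr rfl (fun c _ => h1 c)]
  simp only [Finset.sum_add_distrib, Finset.sum_const, Finset.card_univ, nsmul_eq_mul,
    Finset.sum_ite_eq', Finset.mem_univ, if_true]
  ring

lemma sum_three (g : α → ℂ) (a b d : α) (C : ℂ) (hab : a ≠ b) (had : a ≠ d) (hbd : b ≠ d)
    (h : ∀ c, c ≠ a → c ≠ b → c ≠ d → g c = C) :
    ∑ c, g c = g a + g b + g d + ((Fintype.card α : ℂ) - 3) * C := by
  have h1 : ∀ c, g c = C + (if c = a then g a - C else 0) + (if c = b then g b - C else 0)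
      + (if c = d then g d - C else 0) := by
    intro c
    by_cases h1 : c = a
    · subst h1
      rw [if_pos rfl, if_neg hab, if_neg had]; ring
    · by_cases h2 : c = b
      · subst h2
        rw [if_neg h1, if_pos rfl, if_neg hbd]; ring
      · by_cases h3 : c = d
        · subst h3
          rw [if_neg h1, if_neg h2, if_pos rfl]; ring
        · rw [if_neg h1, if_neg h2, if_neg h3, h c h1 h2 h3]; ring
  rw [Finset.sum_congr rfl (fun c _ => h1 c)]
  simp only [Finset.sum_add_distrib, Finset.sum_const, Finset.card_univ, nsmul_eq_mul,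
    Finset.sum_ite_eq', Finset.mem_univ, if_true]
  ring

lemma sum_four (g : α → ℂ) (a b d e : α) (C : ℂ) (hab : a ≠ b) (had : a ≠ d) (hae : a ≠ e)
    (hbd : b ≠ d) (hbe : b ≠ e) (hde : d ≠ e)
    (h : ∀ c, c ≠ a → c ≠ b → c ≠ d → c ≠ e → g c = C) :
    ∑ c, g c = g a + g b + g d + g e + ((Fintype.card α : ℂ) - 4) * C := by
  have h1 : ∀ c, g c = C + (if c = a then g a - C else 0) + (if c = b then g b - C else 0)
      + (if c = d then g d - C else 0) + (if c = e then g e - C else 0) := by
    intro c
    by_cases h1 : c = a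
    · subst h1
      rw [if_pos rfl, if_neg hab, if_neg had, if_neg hae]; ring
    · by_cases h2 : c = b
      · subst h2
        rw [if_neg h1, if_pos rfl, if_neg hbd, if_neg hbe]; ring
      · by_cases h3 : c = d
        · subst h3
          rw [if_neg h1, if_neg h2, if_pos rfl, if_neg hde]; ring
        · by_cases h4 : c = e
          · subst h4
            rw [if_neg h1, if_neg h2, if_neg h3, if_pos rfl]; ring
          · rw [if_neg h1, if_neg h2, if_neg h3, if_neg h4, h c h1 h2 h3 h4]; ring
  rw [Finset.sum_congr rfl (fun c _ => h1 c)]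
  simp only [Finset.sum_add_distrib, Finset.sum_const, Finset.card_univ, nsmul_eq_mul,
    Finset.sum_ite_eq', Finset.mem_univ, if_true]
  ring

/-- equal hub colours -/
lemma W_eq (x z : α) (hz : z ≠ x) (s : List Bool) : ∀ u, u ≠ x →
    W x x z s u = if u = z then (Pe (Fintype.card α : ℂ) s).1 else (Pe (Fintype.card α : ℂ) s).2 := by
  induction s with
  | nil => intro u _; rw [W_nil]; rfl
  | cons b s ih =>
    intro u hu
    rw [W_cons]
    have hx : ∀ g : α → ℂ, (∑ c, if u ≠ c ∧ x ≠ c ∧ (b = true → x ≠ c) then g c else 0) =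
        ∑ c, if u ≠ c ∧ x ≠ c then g c else 0 := by
      intro g
      apply Finset.sum_congr rfl
      intro c _
      congr 1
      rw [eq_iff_iff]
      constructor
      · rintro ⟨h1, h2, -⟩; exact ⟨h1, h2⟩
      · rintro ⟨h1, h2⟩; exact ⟨h1, h2, fun _ => h2⟩
    rw [hx]
    by_cases huz : u = z
    · subst huz
      rw [if_pos rfl, sum_two _ x u (Pe (Fintype.card α : ℂ) s).2 (fun e => hu e.symm)]
      · simp [Pe]
      · intro c h1 h2
        rw [if_pos ⟨fun e => h2 e.symm, fun e => h1 e.symm⟩, ih c h1, if_neg h2]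
    · rw [if_neg huz, sum_three _ x u z (Pe (Fintype.card α : ℂ) s).2 (fun e => hu e.symm)
        (fun e => hz e.symm) huz]
      · rw [if_neg (fun h => h.2 rfl), if_neg (fun h => h.1 rfl),
          if_pos ⟨huz, fun e => hz e.symm⟩, ih z hz, if_pos rfl]
        simp only [Pe]; ring
      · intro c h1 h2 h3
        rw [if_pos ⟨fun e => h2 e.symm, fun e => h1 e.symm⟩, ih c h1, if_neg h3]

/-- different hub colours -/
lemma W_ne (x y z : α) (hxy : x ≠ y) (hz : z ≠ x) (hzy : z ≠ y) (s : List Bool) : ∀ u, u ≠ x →
    W x y z s u = if u = z then (Pn (Fintype.card α : ℂ) s).1 else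
      if u = y then (Pn (Fintype.card α : ℂ) s).2.1 else (Pn (Fintype.card α : ℂ) s).2.2 := by
  induction s with
  | nil =>
    intro u _; rw [W_nil]
    by_cases h : u = z
    · simp [h, Pn]
    · simp [h, Pn]
  | cons b s ih =>
    intro u hu
    rw [W_cons]
    cases b
    · by_cases huz : u = z
      · subst huz
        rw [if_pos rfl, sum_three _ x y u (Pn (Fintype.card α : ℂ) s).2.2 hxy (fun e => hu e.symm)
          (fun e => hzy e.symm)]
        · rw [if_neg (fun h => h.2.1 rfl), if_pos ⟨hzy, hxy, by simp⟩, if_neg (fun h => h.1 rfl),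
            ih y (fun e => hxy e.symm), if_neg (fun e => hzy e.symm), if_pos rfl]
          simp only [Pn]; ring
        · intro c h1 h2 h3
          rw [if_pos ⟨fun e => h3 e.symm, fun e => h1 e.symm, by simp⟩, ih c h1, if_neg h3, if_neg h2]
      · rw [if_neg huz]
        by_cases huy : u = y
        · subst huy
          rw [if_pos rfl, sum_three _ x u z (Pn (Fintype.card α : ℂ) s).2.2 hxy (fun e => hz e.symm)
            huz]
          · rw [if_neg (fun h => h.2.1 rfl), if_neg (fun h => h.1 rfl),
              if_pos ⟨huz, fun e => hz e.symm, by simp⟩, ih z hz, if_pos rfl]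
            simp only [Pn]; ring
          · intro c h1 h2 h3
            rw [if_pos ⟨fun e => h2 e.symm, fun e => h1 e.symm, by simp⟩, ih c h1, if_neg h3,
              if_neg h2]
        · rw [if_neg huy, sum_four _ x y u z (Pn (Fintype.card α : ℂ) s).2.2 hxy (fun e => hu e.symm)
            (fun e => hz e.symm) (fun e => huy e.symm) (fun e => hzy e.symm) huz]
          · rw [if_neg (fun h => h.2.1 rfl), if_pos ⟨huy, hxy, by simp⟩, if_neg (fun h => h.1 rfl),
              if_pos ⟨huz, fun e => hz e.symm, by simp⟩, ih z hz, if_pos rfl,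
              ih y (fun e => hxy e.symm), if_neg (fun e => hzy e.symm), if_pos rfl]
            simp only [Pn]; ring
          · intro c h1 h2 h3 h4
            rw [if_pos ⟨fun e => h3 e.symm, fun e => h1 e.symm, by simp⟩, ih c h1, if_neg h4,
              if_neg h2]
    · by_cases huz : u = z
      · subst huz
        rw [if_pos rfl, sum_three _ x y u (Pn (Fintype.card α : ℂ) s).2.2 hxy (fun e => hu e.symm)
          (fun e => hzy e.symm)]
        · rw [if_neg (fun h => h.2.1 rfl), if_neg (fun h => h.2.2 rfl rfl), if_neg (fun h => h.1 rfl)]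
          simp only [Pn]; ring
        · intro c h1 h2 h3
          rw [if_pos ⟨fun e => h3 e.symm, fun e => h1 e.symm, fun _ e => h2 e.symm⟩, ih c h1,
            if_neg h3, if_neg h2]
      · rw [if_neg huz]
        by_cases huy : u = y
        · subst huy
          rw [if_pos rfl, sum_three _ x u z (Pn (Fintype.card α : ℂ) s).2.2 hxy (fun e => hz e.symm)
            huz]
          · rw [if_neg (fun h => h.2.1 rfl), if_neg (fun h => h.1 rfl),
              if_pos ⟨huz, fun e => hz e.symm, fun _ => huz⟩, ih z hz, if_pos rfl]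
            simp only [Pn]; ring
          · intro c h1 h2 h3
            rw [if_pos ⟨fun e => h2 e.symm, fun e => h1 e.symm, fun _ e => h2 e.symm⟩, ih c h1,
              if_neg h3, if_neg h2]
        · rw [if_neg huy, sum_four _ x y u z (Pn (Fintype.card α : ℂ) s).2.2 hxy (fun e => hu e.symm)
            (fun e => hz e.symm) (fun e => huy e.symm) (fun e => hzy e.symm) huz]
          · rw [if_neg (fun h => h.2.1 rfl), if_neg (fun h => h.2.2 rfl rfl),
              if_neg (fun h => h.1 rfl),
              if_pos ⟨huz, fun e => hz e.symm, fun _ e => hzy e.symm⟩, ih z hz, if_pos rfl]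
            simp only [Pn]; ring
          · intro c h1 h2 h3 h4
            rw [if_pos ⟨fun e => h3 e.symm, fun e => h1 e.symm, fun _ e => h2 e.symm⟩, ih c h1,
              if_neg h4, if_neg h2]

/-- total number of colourings -/
lemma sum_W (s : List Bool) : (∑ x : α, ∑ y : α, ∑ z : α,
    if x ≠ z ∧ y ≠ z then W x y z s z else 0) = Ptot (Fintype.card α : ℂ) s := by
  have h1 : ∀ x y : α, (∑ z : α, if x ≠ z ∧ y ≠ z then W x y z s z else 0) =
      if y = x then ((Fintype.card α : ℂ) - 1) * (Pe (Fintype.card α : ℂ) s).1 else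
        ((Fintype.card α : ℂ) - 2) * (Pn (Fintype.card α : ℂ) s).1 := by
    intro x y
    by_cases hxy : y = x
    · subst hxy
      rw [if_pos rfl]
      have h2 : ∀ z : α, (if y ≠ z ∧ y ≠ z then W y y z s z else 0) =
          (Pe (Fintype.card α : ℂ) s).1 + if z = y then -(Pe (Fintype.card α : ℂ) s).1 else 0 := by
        intro z
        by_cases h : z = y
        · subst h
          rw [if_neg (fun h => h.1 rfl), if_pos rfl]; ring
        · rw [if_pos ⟨fun e => h e.symm, fun e => h e.symm⟩, W_eq y z h s z h, if_pos rfl,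
            if_neg h]; ring
      rw [Finset.sum_congr rfl (fun z _ => h2 z)]
      simp only [Finset.sum_add_distrib, Finset.sum_const, Finset.card_univ, nsmul_eq_mul,
        Finset.sum_ite_eq', Finset.mem_univ, if_true]
      ring
    · rw [if_neg hxy, sum_two _ x y (Pn (Fintype.card α : ℂ) s).1 (fun e => hxy e.symm)]
      · rw [if_neg (fun h => h.1 rfl), if_neg (fun h => h.2 rfl)]; ring
      · intro z hz1 hz2
        rw [if_pos ⟨fun e => hz1 e.symm, fun e => hz2 e.symm⟩,
          W_ne x y z (fun e => hxy e.symm) hz1 hz2 s z hz1, if_pos rfl]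
  simp only [h1]
  have h3 : ∀ x : α, (∑ y : α, if y = x then ((Fintype.card α : ℂ) - 1) * (Pe (Fintype.card α : ℂ) s).1
      else ((Fintype.card α : ℂ) - 2) * (Pn (Fintype.card α : ℂ) s).1) =
      ((Fintype.card α : ℂ) - 1) * (Pe (Fintype.card α : ℂ) s).1 + ((Fintype.card α : ℂ) - 1) *
        (((Fintype.card α : ℂ) - 2) * (Pn (Fintype.card α : ℂ) s).1) := by
    intro x
    have h4 : ∀ y : α, (if y = x then ((Fintype.card α : ℂ) - 1) * (Pe (Fintype.card α : ℂ) s).1
      else ((Fintype.card α : ℂ) - 2) * (Pn (Fintype.card α : ℂ) s).1) =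
      ((Fintype.card α : ℂ) - 2) * (Pn (Fintype.card α : ℂ) s).1 +
      (if y = x then ((Fintype.card α : ℂ) - 1) * (Pe (Fintype.card α : ℂ) s).1 -
        ((Fintype.card α : ℂ) - 2) * (Pn (Fintype.card α : ℂ) s).1 else 0) := by
      intro y
      split_ifs <;> ring
    rw [Finset.sum_congr rfl (fun y _ => h4 y)]
    simp only [Finset.sum_add_distrib, Finset.sum_const, Finset.card_univ, nsmul_eq_mul,
      Finset.sum_ite_eq', Finset.mem_univ, if_true]
    ring
  simp only [h3]
  rw [Finset.sum_const, Finset.card_univ, nsmul_eq_mul, Ptot]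
  ring

end Pool.Agent.Ch4
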