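import Pool.Agent.Ch4.Count
import Pool.Agent.Ch3.Stmt

/-!
# The chromatic polynomial of the ring graph
-/

namespace Pool.Agent.Ch4

open Finset Classical

variable {α : Type} [Fintype α]

omit [Fintype α] in
lemma OK_iff (x y z : α) (s : List Bool) : ∀ (u : α) (c : Fin s.length → α),
    OK x y z s u c ↔
      (∀ i j : Fin (s.length + 1), i.val + 1 = j.val →
        (Fin.cons u c : Fin (s.length + 1) → α) i ≠ (Fin.cons u c : Fin (s.length + 1) → α) j) ∧
      (∀ i : Fin s.length, x ≠ c i) ∧ (∀ i : Fin s.length, Xw s i.val → y ≠ c i) ∧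
      (Fin.cons u c : Fin (s.length + 1) → α) (Fin.last _) ≠ z := by
  induction s with
  | nil =>
    intro u c
    constructor
    · intro h
      refine ⟨?_, ?_, ?_, h⟩
      · intro i j hij; have := i.2; have := j.2; simp only [List.length_nil] at *; omega
      · intro i; exact i.elim0
      · intro i; exact i.elim0
    · rintro ⟨-, -, -, h⟩
      exact h
  | cons b s ih =>
    intro u c
    have e0 : ∀ (i : Fin (s.length + 1)), (Fin.cons u c : Fin ((b :: s).length + 1) → α) i.succ =
      (Fin.cons (c 0) (fun i => c i.succ) : Fin (s.length + 1) → α) i := by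
      intro i
      refine Fin.cases ?_ (fun i => ?_) i
      · rfl
      · rfl
    have e1 : (Fin.cons u c : Fin ((b :: s).length + 1) → α) (Fin.last _) =
      (Fin.cons (c 0) (fun i => c i.succ) : Fin (s.length + 1) → α) (Fin.last _) :=
      e0 (Fin.last _)
    rw [OK, ih, e1]
    constructor
    · rintro ⟨h1, h2, h3, h4, h5, h6, h7⟩
      refine ⟨?_, ?_, ?_, ?_⟩
      · intro i j
        refine Fin.cases ?_ (fun i => ?_) i
        · refine Fin.cases ?_ (fun j => ?_) j
          · intro h; simp at h
          · intro h
            have : j = 0 := by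
              apply Fin.ext
              simp only [Fin.val_succ, Fin.val_zero] at h ⊢
              omega
            subst this
            exact h1
        · refine Fin.cases ?_ (fun j => ?_) j
          · intro h; simp at h
          · intro h
            rw [e0, e0]
            exact h4 i j (by simp only [Fin.val_succ] at h; omega)
      · intro i
        refine Fin.cases ?_ (fun i => ?_) i
        · exact h2
        · exact h5 i
      · intro i
        refine Fin.cases ?_ (fun i => ?_) i
        · exact h3
        · exact h6 i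
      · exact h7
    · rintro ⟨h1, h2, h3, h4⟩
      refine ⟨h1 0 (Fin.succ 0) rfl, h2 0, h3 0, ?_, fun i => h2 i.succ, fun i => h3 i.succ, h4⟩
      intro i j hij
      have := h1 i.succ j.succ (by simp only [Fin.val_succ]; omega)
      rw [e0, e0] at this
      exact this

/-- decomposition of the colourings of the vertex set -/
def decomp (α : Type) (s : List Bool) :
    (V s → α) ≃ (α × α) × (Fin (s.length + 1) → α) where
  toFun c := ((c (.inl false), c (.inl true)), fun i => c (.inr i))
  invFun t := fun v => match v with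
    | .inl false => t.1.1
    | .inl true => t.1.2
    | .inr i => t.2 i
  left_inv c := by
    funext v
    rcases v with b | i
    · cases b <;> rfl
    · rfl
  right_inv t := rfl

omit [Fintype α] in
lemma proper_iff (s : List Bool) (x y z : α) (c : Fin s.length → α) :
    (∀ u v, rel s u v → (decomp α s).symm ((x, y), Fin.cons z c) u ≠
      (decomp α s).symm ((x, y), Fin.cons z c) v) ↔
    (x ≠ z ∧ y ≠ z) ∧ OK x y z s z c := by
  rw [OK_iff]
  constructor
  · intro h
    refine ⟨⟨h (.inl false) (.inr 0) trivial, h (.inl true) (.inr 0) trivial⟩, ?_, ?_, ?_, ?_⟩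
    · intro i j hij
      exact h (.inr i) (.inr j) (Or.inl hij)
    · intro i
      exact h (.inl false) (.inr i.succ) trivial
    · intro i hi
      exact h (.inl true) (.inr i.succ) hi
    · exact h (.inr (Fin.last _)) (.inr 0) (Or.inr ⟨rfl, rfl⟩)
  · rintro ⟨⟨h1, h2⟩, h3, h4, h5, h6⟩ u v huv
    rcases u with b | i
    · rcases v with b' | j
      · exfalso; cases b <;> exact huv
      · cases b
        · revert huv
          refine Fin.cases ?_ (fun j => ?_) j
          · intro _; exact h1
          · intro _; exact h4 j
        · revert huv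
          refine Fin.cases ?_ (fun j => ?_) j
          · intro _; exact h2
          · intro hj; exact h5 j hj
    · rcases v with b' | j
      · exact huv.elim
      · rcases huv with h | ⟨rfl, rfl⟩
        · exact h3 i j h
        · exact h6

lemma card_colorings (s : List Bool) :
    (Fintype.card {c : V s → α // ∀ x y, rel s x y → c x ≠ c y} : ℂ) =
    Ptot (Fintype.card α : ℂ) s := by
  rw [Fintype.card_subtype, Finset.card_filter, Nat.cast_sum]
  simp only [Nat.cast_ite, Nat.cast_one, Nat.cast_zero]
  rw [← (decomp α s).symm.sum_comp, Fintype.sum_prod_type, Fintype.sum_prod_type, ← sum_W]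
  apply Finset.sum_congr rfl; intro x _
  apply Finset.sum_congr rfl; intro y _
  rw [sum_fin_succ]
  apply Finset.sum_congr rfl; intro z _
  simp only [proper_iff]
  by_cases h : x ≠ z ∧ y ≠ z
  · rw [if_pos h, W]
    apply Finset.sum_congr rfl; intro c _
    simp only [h, true_and, ne_eq, not_false_eq_true]
  · rw [if_neg h]
    apply Finset.sum_eq_zero; intro c _
    rw [if_neg (fun h' => h h'.1)]

lemma natcard_colorings (s : List Bool) :
    (Nat.card {c : V s → α // ∀ x y, rel s x y → c x ≠ c y} : ℂ) =
    Ptot (Fintype.card α : ℂ) s := by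
  rw [Nat.card_eq_fintype_card]
  exact card_colorings s

lemma isChromaticPoly_G (s : List Bool) (hs : s ≠ []) :
    Ch3.IsChromaticPoly (G s) (Ptot (Polynomial.X : Polynomial ℂ) s) := by
  intro k
  have h1 : (Ptot (Polynomial.X : Polynomial ℂ) s).eval (k : ℂ) = Ptot (k : ℂ) s := by
    have := map_Ptot (Polynomial.evalRingHom (k : ℂ)) (Polynomial.X : Polynomial ℂ) s
    simp only [Polynomial.coe_evalRingHom, Polynomial.eval_X] at this
    exact this.symm
  rw [h1]
  have h2 := natcard_colorings (α := Fin k) s
  rw [Fintype.card_fin] at h2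
  rw [← h2]
  congr 1
  apply Nat.card_congr
  refine ⟨fun c => ⟨fun v => c.1 v, ?_⟩, fun c => ⟨fun v => c v, ?_⟩, ?_, ?_⟩
  · intro a b hab
    rw [G_adj s hs] at hab
    rcases hab with h | h
    · exact c.2 a b h
    · exact fun e => c.2 b a h e.symm
  · intro a b hab
    have : (G s).Adj a b := by
      rw [G_adj s hs]; exact Or.inl hab
    exact c.map_rel this
  · intro c
    rfl
  · intro c
    rfl

/-! ### The block words -/

/-- the ring word of a list of gaps; the entry `g` stands for a gap of length `g + 1` -/
def bw : List ℕ → List Bool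
  | [] => []
  | g :: gs => true :: (List.replicate g false ++ bw gs)

section Ring

variable {R : Type*} [CommRing R]

/-- coefficient of a gap -/
def Ac (q : R) : ℕ → R
  | 0 => 1
  | g + 1 => (q - 2) * Ac q g + (-1) ^ (g + 1)

/-- the vector at a vertex adjacent to both hubs: current colour is the closing colour or not -/
def Uv (q : R) : List ℕ → R × R
  | [] => (1, 0)
  | g :: gs => (Ac q g * ((Uv q gs).1 + (q - 3) * (Uv q gs).2) + (-1) ^ (g + 1) * (Uv q gs).1,
      Ac q g * ((Uv q gs).1 + (q - 3) * (Uv q gs).2) + (-1) ^ (g + 1) * (Uv q gs).2)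

lemma Pn_block (q : R) (t : List Bool) (u : R × R)
    (h : Pn q t = (u.1 + (q - 3) * u.2 - u.1, u.1 + (q - 3) * u.2, u.1 + (q - 3) * u.2 - u.2))
    (g : ℕ) : Pn q (List.replicate g false ++ t) =
      (Ac q g * (u.1 + (q - 3) * u.2) + (-1) ^ (g + 1) * u.1, Ac q g * (u.1 + (q - 3) * u.2),
        Ac q g * (u.1 + (q - 3) * u.2) + (-1) ^ (g + 1) * u.2) := by
  induction g with
  | zero =>
    simp only [List.replicate_zero, List.nil_append, h, Ac]
    ext
    · simp only; ring
    · simp only; ring
    · simp only; ring
  | succ g ih =>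
    rw [List.replicate_succ, List.cons_append]
    simp only [Pn, ih, Ac]
    ext
    · simp only; ring
    · simp only; ring
    · simp only; ring

lemma Pn_bw (q : R) (gs : List ℕ) : Pn q (bw gs) =
    ((Uv q gs).1 + (q - 3) * (Uv q gs).2 - (Uv q gs).1, (Uv q gs).1 + (q - 3) * (Uv q gs).2,
      (Uv q gs).1 + (q - 3) * (Uv q gs).2 - (Uv q gs).2) := by
  induction gs with
  | nil => simp [bw, Pn, Uv]
  | cons g gs ih =>
    have h := Pn_block q (bw gs) (Uv q gs) ih g
    simp only [bw, Pn, h, Uv]
    ext
    · simp only; ring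
    · rfl
    · simp only; ring

lemma Uv_sum (q : R) (gs : List ℕ) :
    (Uv q gs).1 + (q - 3) * (Uv q gs).2 = (gs.map fun g => Ac q (g + 1)).prod ∧
    (Uv q gs).1 - (Uv q gs).2 = (-1) ^ (gs.map fun g => g + 1).sum := by
  induction gs with
  | nil => simp [Uv]
  | cons g gs ih =>
    obtain ⟨h1, h2⟩ := ih
    rw [List.map_cons, List.prod_cons, List.map_cons, List.sum_cons, pow_add, ← h1, ← h2]
    simp only [Uv, Ac]
    constructor
    · ring
    · ring

lemma Pe_eq (q : R) (s : List Bool) :
    (Pe q s).1 + (q - 2) * (Pe q s).2 = (q - 2) ^ (s.length + 1) ∧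
    (Pe q s).1 - (Pe q s).2 = (-1) ^ (s.length + 1) := by
  induction s with
  | nil => simp [Pe]
  | cons b s ih =>
    obtain ⟨h1, h2⟩ := ih
    simp only [Pe, List.length_cons]
    constructor
    · rw [pow_succ, ← h1]; ring
    · rw [pow_succ, ← h2]; ring

lemma length_bw (gs : List ℕ) : (bw gs).length = (gs.map fun g => g + 1).sum := by
  induction gs with
  | nil => rfl
  | cons g gs ih =>
    simp only [bw, List.length_cons, List.length_append, List.length_replicate, ih, List.map_cons,
      List.sum_cons]
    omega

/-- The chromatic polynomial of the ring with gaps. -/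
theorem Ptot_bw (q : R) (g : ℕ) (gs : List ℕ) :
    Ptot q (List.replicate g false ++ bw gs) =
      q * ((q - 2) ^ ((g :: gs).map fun g => g + 1).sum +
        (q - 1) * ((g :: gs).map fun g => Ac q (g + 1)).prod +
        (q ^ 2 - 3 * q + 1) * (-1) ^ ((g :: gs).map fun g => g + 1).sum) := by
  obtain ⟨h1, h2⟩ := Pe_eq q (List.replicate g false ++ bw gs)
  obtain ⟨h3, h4⟩ := Uv_sum q (g :: gs)
  have h5 : (List.replicate g false ++ bw gs).length + 1 = ((g :: gs).map fun g => g + 1).sum := by
    rw [← length_bw, bw, List.length_cons]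
  rw [h5] at h1 h2
  have h6 := Pn_block q (bw gs) (Uv q gs) (Pn_bw q gs) g
  have h7 : (Pn q (List.replicate g false ++ bw gs)).1 = (Uv q (g :: gs)).1 := by
    rw [h6]; rfl
  rw [Ptot, h7]
  linear_combination q * h1 + q * (q - 2) * h2 + q * (q - 1) * h3 + q * (q - 1) * (q - 3) * h4

end Ring

end Pool.Agent.Ch4
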