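import Mathlib

/-!
# Rings with two hubs

A ring of vertices; the hub `inl false` is adjacent to all of them and the hub `inl true` is
adjacent to the ring vertex `0` and to the ring vertices `i + 1` for which the `i`-th letter of
the word `s` is `true`.
-/

namespace Pool.Agent.Ch4

/-- letter `i` of the word is `true` -/
def Xw : List Bool → ℕ → Prop
  | [], _ => False
  | b :: _, 0 => b = true
  | _ :: s, i + 1 => Xw s i

/-- ring vertices adjacent to the second hub -/
def Xr (s : List Bool) : ℕ → Prop
  | 0 => True
  | i + 1 => Xw s i

/-- vertices: two hubs and the ring -/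
abbrev V (s : List Bool) := Bool ⊕ Fin (s.length + 1)

/-- The edges, each listed in one direction only. -/
def rel (s : List Bool) : V s → V s → Prop
  | .inl false, .inr _ => True
  | .inl true, .inr i => Xr s i.val
  | .inr i, .inr j => i.val + 1 = j.val ∨ (i = Fin.last s.length ∧ j = 0)
  | _, _ => False

lemma rel_irrefl (s : List Bool) (hs : s ≠ []) (x : V s) : ¬ rel s x x := by
  rcases x with b | i
  · cases b <;> exact id
  · rintro (h | ⟨h1, h2⟩)
    · omega
    · rw [h1] at h2
      have := congrArg Fin.val h2
      simp only [Fin.val_last, Fin.val_zero] at this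
      exact hs (List.length_eq_zero_iff.mp this)

/-- The ring graph. -/
def G (s : List Bool) : SimpleGraph (V s) := SimpleGraph.fromRel (rel s)

lemma G_adj (s : List Bool) (hs : s ≠ []) (x y : V s) :
    (G s).Adj x y ↔ rel s x y ∨ rel s y x := by
  rw [G, SimpleGraph.fromRel_adj]
  constructor
  · exact fun h => h.2
  · intro h
    refine ⟨?_, h⟩
    rintro rfl
    exact rel_irrefl s hs x (h.elim id id)

section Ring

variable {R : Type*} [CommRing R]

/-- number of colourings of the rest of the ring when the hubs have the same colour: if the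
current colour is the closing colour, or another one -/
def Pe (q : R) : List Bool → R × R
  | [] => (0, 1)
  | _ :: s => ((q - 2) * (Pe q s).2, (Pe q s).1 + (q - 3) * (Pe q s).2)

/-- number of colourings of the rest of the ring when the hubs have different colours: if the
current colour is the closing colour, the colour of the second hub, or another one -/
def Pn (q : R) : List Bool → R × R × R
  | [] => (0, 1, 1)
  | true :: s => ((q - 3) * (Pn q s).2.2, (Pn q s).1 + (q - 3) * (Pn q s).2.2,
      (Pn q s).1 + (q - 4) * (Pn q s).2.2)
  | false :: s => ((Pn q s).2.1 + (q - 3) * (Pn q s).2.2, (Pn q s).1 + (q - 3) * (Pn q s).2.2,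
      (Pn q s).1 + (Pn q s).2.1 + (q - 4) * (Pn q s).2.2)

/-- The chromatic polynomial of the ring graph. -/
def Ptot (q : R) (s : List Bool) : R :=
  q * (q - 1) * (Pe q s).1 + q * (q - 1) * (q - 2) * (Pn q s).1

variable {R' : Type*} [CommRing R']

lemma map_Pe (f : R →+* R') (q : R) (s : List Bool) :
    Pe (f q) s = (f (Pe q s).1, f (Pe q s).2) := by
  induction s with
  | nil => simp [Pe]
  | cons b s ih => simp [Pe, ih, map_ofNat f]

lemma map_Pn (f : R →+* R') (q : R) (s : List Bool) :
    Pn (f q) s = (f (Pn q s).1, f (Pn q s).2.1, f (Pn q s).2.2) := by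
  induction s with
  | nil => simp [Pn]
  | cons b s ih => cases b <;> simp [Pn, ih, map_ofNat f]

lemma map_Ptot (f : R →+* R') (q : R) (s : List Bool) :
    Ptot (f q) s = f (Ptot q s) := by
  rw [Ptot, map_Pe, map_Pn, Ptot]
  simp [map_ofNat f]

end Ring

end Pool.Agent.Ch4
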