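import Pool.Agent.Ch4.Defs
import Pool.Agent.Ch3.Planar

/-!
# Planarity of the ring graph

All edges are straight segments, except the edge which closes the ring; it is drawn around the
first hub.
-/

namespace Pool.Agent.Ch4

open Pool.Agent.Ch3

section Abstract

variable {W : Type} {col : W → ℕ} {Sl : W → W → Prop} {n : ℕ}

/-- the parameter of the closing edge -/
noncomputable def ph (t : ℝ) : ℝ := t - 3 * (t * (1 - t) * (1 - 2 * t))

lemma ph_zero : ph 0 = 0 := by norm_num [ph]
lemma ph_one : ph 1 = 1 := by norm_num [ph]

/-- the closing edge is outside the box -/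
lemma ph_out (t : ℝ) (h0 : 0 < t) (h1 : t < 1) (h : 12 * (t * (1 - t)) ≤ 1) :
    ph t < 0 ∨ 1 < ph t := by
  rcases le_total t (1 / 2) with h2 | h2
  · left
    unfold ph
    have h3 : t * (1 - t) ≤ 1 / 12 := by linarith
    have h4 : t ≤ 1 / 6 := by nlinarith
    have h5 : 3 * ((1 - t) * (1 - 2 * t)) > 1 := by nlinarith
    nlinarith
  · right
    unfold ph
    have h3 : t * (1 - t) ≤ 1 / 12 := by linarith
    have h4 : 5 / 6 ≤ t := by nlinarith
    have h5 : 3 * (t * (2 * t - 1)) > 1 := by nlinarith
    nlinarith

lemma ph_inj (s t : ℝ) (hs0 : 0 ≤ s) (hs1 : s ≤ 1) (ht0 : 0 ≤ t) (ht1 : t ≤ 1)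
    (h1 : s * (1 - s) = t * (1 - t)) (h2 : ph s = ph t) : s = t := by
  have h3 : (s - t) * (1 - s - t) = 0 := by linear_combination h1
  rcases mul_eq_zero.mp h3 with h | h
  · linarith
  · have h4 : s = 1 - t := by linarith
    subst h4
    unfold ph at h2
    have h5 : (1 - 2 * t) * (1 + 6 * (t * (1 - t))) = 0 := by nlinarith
    have h6 : 0 ≤ t * (1 - t) := mul_nonneg ht0 (by linarith)
    rcases mul_eq_zero.mp h5 with h7 | h7
    · linarith
    · nlinarith

/-- x-coordinate of a drawn edge -/
noncomputable def ex (b : Bool) (t : ℝ) : ℝ := if b then ph t else t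

/-- extra y-coordinate of a drawn edge -/
noncomputable def ey (b : Bool) (t : ℝ) : ℝ := if b then 12 * (t * (1 - t)) else 0

/-- a drawn edge -/
noncomputable def arc (b : Bool) (z w : ℂ) : Path z w where
  toFun t := ⟨z.re + ex b t * (w.re - z.re), z.im + (t : ℝ) * (w.im - z.im) + ey b t⟩
  continuous_toFun := by
    have h : ∀ (f g : unitInterval → ℝ), Continuous f → Continuous g →
        Continuous (fun t => (⟨f t, g t⟩ : ℂ)) := by
      intro f g hf hg
      have : (fun t => (⟨f t, g t⟩ : ℂ)) = fun t => (f t : ℂ) + (g t : ℂ) * Complex.I := by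
        funext t
        apply Complex.ext <;> simp
      rw [this]
      fun_prop
    cases b
    · apply h
      · simp only [ex, Bool.false_eq_true, if_false]; fun_prop
      · simp only [ey, Bool.false_eq_true, if_false]; fun_prop
    · apply h
      · simp only [ex, ph, if_true]; fun_prop
      · simp only [ey, if_true]; fun_prop
  source' := by
    cases b <;> apply Complex.ext <;> simp [ex, ey, ph]
  target' := by
    cases b <;> apply Complex.ext <;> simp [ex, ey, ph]

lemma arc_re (b : Bool) (z w : ℂ) (t : unitInterval) :
    (arc b z w t).re = z.re + ex b t * (w.re - z.re) := rfl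

lemma arc_im (b : Bool) (z w : ℂ) (t : unitInterval) :
    (arc b z w t).im = z.im + (t : ℝ) * (w.im - z.im) + ey b t := rfl

/-- closing edge -/
def Cl (u0 u1 : W) (a b : Bool ⊕ W) : Prop :=
  (a = .inr u0 ∧ b = .inr u1) ∨ (a = .inr u1 ∧ b = .inr u0)

lemma px_nonneg (v : Bool ⊕ W) : 0 ≤ px col v := by
  rcases v with b | v
  · exact le_refl _
  · exact Nat.cast_nonneg _

lemma px_le (hn : ∀ v, col v ≤ n) (v : Bool ⊕ W) : px col v ≤ n := by
  rcases v with b | v
  · exact Nat.cast_nonneg _
  · simp only [px]; exact_mod_cast hn v

lemma py_le (v : Bool ⊕ W) : py (fun _ : W => 0) 0 v ≤ 1 := by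
  rcases v with b | v
  · cases b
    · simp [py]
    · simp only [py]; norm_num
  · simp [py]

theorem planar_close {G : SimpleGraph (Bool ⊕ W)} (u0 u1 : W) (hn1 : 1 ≤ n)
    (hinj : ∀ u v, col u = col v → u = v) (hn : ∀ v, col v ≤ n) (h0 : col u0 = 0)
    (h1 : col u1 = n)
    (hcol : ∀ u v, Sl u v → col v = col u + 1)
    (hadj : ∀ a b, G.Adj a b → ¬ Cl u0 u1 a b →
      ET col (fun _ => 0) 0 Sl a b ∨ ET col (fun _ => 0) 0 Sl b a) : PlanarG G := by
  classical
  have hnR : (1 : ℝ) ≤ n := by exact_mod_cast hn1
  set dep : W → ℕ := fun _ => 0 with hdep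
  set f : Bool ⊕ W → ℂ := fun v => ⟨px col v, py dep 0 v⟩ with hf
  have hinj' : ∀ u v : W, col u = col v → dep u = dep v → u = v := fun u v h _ => hinj u v h
  have hM : ∀ v : W, dep v ≤ 0 := fun v => le_refl _
  have hchain : ∀ u v x y, Sl u v → Sl x y → col u = col x →
      (dep u ≤ dep x ∧ dep v ≤ dep y) ∨ (dep x ≤ dep u ∧ dep y ≤ dep v) :=
    fun u v x y _ _ _ => Or.inl ⟨le_refl _, le_refl _⟩
  have hfinj : Function.Injective f := by
    intro a b hab
    have h1 : px col a = px col b := congrArg Complex.re hab
    have h2 : py dep 0 a = py dep 0 b := congrArg Complex.im hab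
    rcases a with a | a <;> rcases b with b | b
    · cases a <;> cases b
      · rfl
      · simp only [py] at h2; norm_num at h2
      · simp only [py] at h2; norm_num at h2
      · rfl
    · exfalso
      cases a
      · simp only [py, hdep] at h2; norm_num at h2
      · simp only [py, hdep] at h2; norm_num at h2
    · exfalso
      cases b
      · simp only [py, hdep] at h2; norm_num at h2
      · simp only [py, hdep] at h2; norm_num at h2
    · simp only [px] at h1
      rw [hinj a b (by exact_mod_cast h1)]
  have hfre : ∀ v, (f v).re = px col v := fun v => rfl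
  have hfim : ∀ v, (f v).im = py dep 0 v := fun v => rfl
  -- closing edge: coordinates
  have hcl : ∀ a b, Cl u0 u1 a b → ∀ t : unitInterval, (arc true (f a) (f b) t).im =
      12 * ((t : ℝ) * (1 - t)) ∧ ((arc true (f a) (f b) t).re = n * ph t ∨
        (arc true (f a) (f b) t).re = n * (1 - ph t)) := by
    intro a b hab t
    rw [arc_im, arc_re, hfre, hfre, hfim, hfim]
    rcases hab with ⟨rfl, rfl⟩ | ⟨rfl, rfl⟩
    · simp only [px, py, hdep, h0, h1, ex, ey, if_true]
      refine ⟨by norm_num, Or.inl ?_⟩
      push_cast; ring
    · simp only [px, py, hdep, h0, h1, ex, ey, if_true]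
      refine ⟨by norm_num, Or.inr ?_⟩
      push_cast; ring
  -- a point of the closing edge in the box is an end point
  have hout : ∀ a b, Cl u0 u1 a b → ∀ t : unitInterval, 0 ≤ (arc true (f a) (f b) t).re →
      (arc true (f a) (f b) t).re ≤ n → (arc true (f a) (f b) t).im ≤ 1 →
      t = 0 ∨ t = 1 := by
    intro a b hab t e1 e2 e3
    obtain ⟨g1, g2⟩ := hcl a b hab t
    by_contra hcon
    push Not at hcon
    have ht0 : 0 < (t : ℝ) := lt_of_le_of_ne t.2.1 (fun e => hcon.1 (Subtype.ext e.symm))
    have ht1 : (t : ℝ) < 1 := lt_of_le_of_ne t.2.2 (fun e => hcon.2 (Subtype.ext e))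
    rw [g1] at e3
    rcases ph_out t ht0 ht1 e3 with h | h <;> rcases g2 with g | g <;> rw [g] at e1 e2 <;> nlinarith
  -- a straight edge is in the box
  have hbox : ∀ (a b : Bool ⊕ W) (t : unitInterval), 0 ≤ (arc false (f a) (f b) t).re ∧
      (arc false (f a) (f b) t).re ≤ n ∧ (arc false (f a) (f b) t).im ≤ 1 := by
    intro a b t
    rw [arc_re, arc_im]
    simp only [ex, ey, hfre, hfim]
    have p1 := px_nonneg (col := col) a
    have p2 := px_nonneg (col := col) b
    have p3 := px_le hn a
    have p4 := px_le hn b
    have p5 := py_le (W := W) a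
    have p6 := py_le (W := W) b
    have t0 := t.2.1
    have t1 := t.2.2
    have t1' : 0 ≤ 1 - (t : ℝ) := by linarith
    refine ⟨?_, ?_, ?_⟩
    · have q1 := mul_nonneg t1' p1
      have q2 := mul_nonneg t0 p2
      simp only [Bool.false_eq_true, if_false]
      nlinarith
    · have q1 := mul_nonneg t1' (sub_nonneg.mpr p3)
      have q2 := mul_nonneg t0 (sub_nonneg.mpr p4)
      simp only [Bool.false_eq_true, if_false]
      nlinarith
    · have q1 := mul_nonneg t1' (sub_nonneg.mpr p5)
      have q2 := mul_nonneg t0 (sub_nonneg.mpr p6)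
      simp only [Bool.false_eq_true, if_false, hdep]
      nlinarith
  have hclne : ∀ a b, Cl u0 u1 a b → a ≠ b := by
    rintro a b (⟨rfl, rfl⟩ | ⟨rfl, rfl⟩) h
    · have h2 : u0 = u1 := Sum.inr_injective h
      rw [h2, h1] at h0; omega
    · have h2 : u1 = u0 := Sum.inr_injective h
      rw [← h2, h1] at h0; omega
  refine ⟨f, fun u v => arc (decide (Cl u0 u1 u v)) (f u) (f v), hfinj, ?_, ?_⟩
  · intro u v huv
    beta_reduce
    by_cases hc : Cl u0 u1 u v
    · rw [decide_eq_true hc]
      refine ⟨?_, ?_⟩
      · intro t t' h
        have e1 := congrArg Complex.re h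
        have e2 := congrArg Complex.im h
        rw [arc_re, arc_re] at e1
        rw [arc_im, arc_im] at e2
        have e3 : (f v).re - (f u).re ≠ 0 := by
          rcases hc with ⟨rfl, rfl⟩ | ⟨rfl, rfl⟩
          · simp only [hfre, px, h0, h1]; push_cast; intro h; linarith
          · simp only [hfre, px, h0, h1]; push_cast; intro h; linarith
        have e4 : (f v).im - (f u).im = 0 := by
          rcases hc with ⟨rfl, rfl⟩ | ⟨rfl, rfl⟩ <;> simp [hfim, py, hdep]
        rw [e4] at e2
        simp only [ey, if_true] at e2
        simp only [ex, if_true] at e1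
        have e5 : ph t = ph t' := by
          have := add_left_cancel e1
          exact mul_right_cancel₀ e3 this
        exact Subtype.ext (ph_inj t t' t.2.1 t.2.2 t'.2.1 t'.2.2 (by linarith) e5)
      · intro t w h
        have hw := hbox w w 0
        rw [(arc false (f w) (f w)).source] at hw
        have h2 : t = 0 ∨ t = 1 := hout u v hc t (by rw [h]; exact hw.1) (by rw [h]; exact hw.2.1)
          (by rw [h]; exact hw.2.2)
        rcases h2 with rfl | rfl
        · left
          rw [Path.source] at h
          exact hfinj h.symm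
        · right
          rw [Path.target] at h
          exact hfinj h.symm
    · rw [decide_eq_false hc]
      refine ⟨?_, ?_⟩
      · intro t t' h
        have e1 := congrArg Complex.re h
        have e2 := congrArg Complex.im h
        rw [arc_re, arc_re] at e1
        rw [arc_im, arc_im] at e2
        simp only [ex, ey] at e1 e2
        have h3 : (f v).re ≠ (f u).re ∨ (f v).im ≠ (f u).im := by
          by_contra hcon
          push Not at hcon
          exact huv.ne (hfinj (Complex.ext hcon.1.symm hcon.2.symm))
        apply Subtype.ext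
        rcases h3 with h3 | h3
        · have h4 : (f v).re - (f u).re ≠ 0 := sub_ne_zero.mpr h3
          have e3 := add_left_cancel e1
          exact mul_right_cancel₀ h4 e3
        · have h4 : (f v).im - (f u).im ≠ 0 := sub_ne_zero.mpr h3
          have e3 := add_left_cancel (add_right_cancel e2)
          exact mul_right_cancel₀ h4 e3
      · intro t w h
        have hx := congrArg Complex.re h
        have hy := congrArg Complex.im h
        rw [arc_re] at hx
        rw [arc_im] at hy
        simp only [ex, ey, Bool.false_eq_true, if_false, add_zero, hfre, hfim] at hx hy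
        rcases hadj u v huv hc with hE | hE
        · exact lemA hinj' hM hcol hE t t.2.1 t.2.2 hx hy
        · exact (lemA hinj' hM hcol hE (1 - t) (by linarith [t.2.2]) (by linarith [t.2.1])
            (by rw [← hx]; ring) (by rw [← hy]; ring)).symm
  · intro u v x y huv hxy hne a b hab
    beta_reduce at hab ⊢
    by_cases hc : Cl u0 u1 u v
    · by_cases hc' : Cl u0 u1 x y
      · exfalso
        apply hne
        rcases hc with ⟨rfl, rfl⟩ | ⟨rfl, rfl⟩ <;> rcases hc' with ⟨rfl, rfl⟩ | ⟨rfl, rfl⟩ <;>
          first | rfl | exact Sym2.eq_swap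
      · rw [decide_eq_true hc, decide_eq_false hc'] at hab
        have hb := hbox x y b
        rw [← hab] at hb
        rcases hout u v hc a hb.1 hb.2.1 hb.2.2 with rfl | rfl
        · exact ⟨u, by simp⟩
        · exact ⟨v, by simp⟩
    · by_cases hc' : Cl u0 u1 x y
      · have hab' := hab
        rw [decide_eq_false hc, decide_eq_true hc'] at hab'
        have hb := hbox u v a
        rw [hab'] at hb
        have := hout x y hc' b hb.1 hb.2.1 hb.2.2
        rw [hab]
        rcases this with rfl | rfl
        · exact ⟨x, by simp⟩
        · exact ⟨y, by simp⟩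
      · rw [decide_eq_false hc, decide_eq_false hc'] at hab
        have hx := congrArg Complex.re hab
        have hy := congrArg Complex.im hab
        rw [arc_re, arc_re] at hx
        rw [arc_im, arc_im] at hy
        simp only [ex, ey, Bool.false_eq_true, if_false, add_zero, hfre, hfim] at hx hy
        have n1 : ¬ (u = x ∧ v = y) := by
          rintro ⟨rfl, rfl⟩; exact hne rfl
        have n2 : ¬ (u = y ∧ v = x) := by
          rintro ⟨rfl, rfl⟩; exact hne Sym2.eq_swap
        have key : IsV col dep 0 u v a := by
          have a0 := a.2.1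
          have a1 := a.2.2
          have b0 := b.2.1
          have b1 := b.2.2
          rcases hadj u v huv hc with hE | hE <;> rcases hadj x y hxy hc' with hE' | hE'
          · exact lemB hinj' hM hcol hchain hE hE' n1 a b a0 a1 b0 b1 hx hy
          · exact lemB hinj' hM hcol hchain hE hE' n2 a (1 - b) a0 a1 (by linarith) (by linarith)
              (by rw [hx]; ring) (by rw [hy]; ring)
          · have := lemB hinj' hM hcol hchain hE hE' (fun h => n2 h.symm) (1 - a) b (by linarith)
              (by linarith) b0 b1 (by rw [← hx]; ring) (by rw [← hy]; ring)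
            exact this.congr (by ring) (by ring)
          · have := lemB hinj' hM hcol hchain hE hE' (fun h => n1 h.symm) (1 - a) (1 - b)
              (by linarith) (by linarith) (by linarith) (by linarith)
              (by linear_combination hx) (by linear_combination hy)
            exact this.congr (by ring) (by ring)
        obtain ⟨w, h1, h2⟩ := key
        refine ⟨w, ?_⟩
        rw [decide_eq_false hc]
        apply Complex.ext
        · rw [arc_re]
          simp only [ex, Bool.false_eq_true, if_false, hfre, h1]
        · rw [arc_im]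
          simp only [ey, Bool.false_eq_true, if_false, add_zero, hfim, h2]

end Abstract

/-- The ring graph is planar. -/
theorem planar (s : List Bool) (hs : s ≠ []) : PlanarG (G s) := by
  have hl : 1 ≤ s.length := Nat.one_le_iff_ne_zero.mpr (fun h => hs (List.length_eq_zero_iff.mp h))
  apply planar_close (col := fun i : Fin (s.length + 1) => i.val) (n := s.length)
    (Sl := fun i j => i.val + 1 = j.val) (0 : Fin (s.length + 1)) (Fin.last s.length) hl
  · intro u v h; exact Fin.ext h
  · intro v; exact Nat.lt_succ_iff.mp v.2
  · rfl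
  · rfl
  · intro u v h; exact h.symm
  · have key : ∀ a b, rel s a b → ¬ Cl (0 : Fin (s.length + 1)) (Fin.last s.length) a b →
        ET (fun i : Fin (s.length + 1) => i.val) (fun _ => 0) 0 (fun i j => i.val + 1 = j.val) a b := by
      intro a b h hc
      rcases a with a | i
      · rcases b with b | j
        · cases a <;> exact h.elim
        · cases a
          · exact ET.top _ rfl
          · exact ET.bot _ rfl
      · rcases b with b | j
        · exact h.elim
        · rcases h with h | ⟨rfl, rfl⟩
          · exact ET.slant _ _ h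
          · exact absurd (Or.inr ⟨rfl, rfl⟩) hc
    intro a b h hc
    rw [G_adj s hs] at h
    rcases h with h | h
    · exact Or.inl (key a b h hc)
    · refine Or.inr (key b a h (fun h' => hc ?_))
      rcases h' with ⟨h1, h2⟩ | ⟨h1, h2⟩
      · exact Or.inr ⟨h2, h1⟩
      · exact Or.inl ⟨h2, h1⟩

end Pool.Agent.Ch4
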