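import Pool.Agent.Ch4.Count2
import Pool.Agent.Ch4.Planar
import Pool.Agent.Ch4.Conn
import Pool.Agent.Ch4.Ana
import Pool.Agent.Ch3.Final1
import Pool.Agent.LibChromRoots.FinalD

/-!
# Density of the chromatic roots outside the open unit disc around 1
-/

namespace Pool.Agent.Ch4

open Metric Filter Topology Complex
open Pool.Agent.Ch3 (rootSet mem_rootSet dense_outside)

lemma Ac_closed (q : ℂ) (g : ℕ) : (q - 1) * Ac q g = (q - 2) ^ (g + 1) - (-1) ^ (g + 1) := by
  induction g with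
  | zero => simp [Ac]; ring
  | succ g ih =>
    have h : (q - 1) * Ac q (g + 1) = (q - 2) * ((q - 1) * Ac q g) + (q - 1) * (-1) ^ (g + 1) := by
      rw [Ac]; ring
    rw [h, ih]; ring

/-- a zero of the closed form gives a chromatic root -/
lemma root_of_closed (n b m : ℕ) (v : ℂ) (hn : 3 ≤ n) (hv : 1 - v ≠ 0)
    (h : (1 - v) * (1 + v) ^ n * ((1 - v ^ (m + 2)) / (1 - v)) ^ b =
        1 + v - v ^ 2 - v ^ (n + b * (m + 1))) : 2 - v ∈ rootSet := by
  obtain ⟨n', rfl⟩ : ∃ n', n = n' + 3 := ⟨n - 3, by omega⟩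
  set gs : List ℕ := 0 :: 0 :: (List.replicate n' 0 ++ List.replicate b m) with hgs
  set s : List Bool := List.replicate 0 false ++ bw gs with hs
  have hs' : s = true :: true :: bw (List.replicate n' 0 ++ List.replicate b m) := by
    rw [hs, hgs]; simp [bw]
  have hsne : s ≠ [] := by rw [hs']; simp
  refine mem_rootSet (G s) (threeConn 0 1 (by norm_num) ?_ ?_ ?_) (planar s hsne)
    (Ptot (Polynomial.X : Polynomial ℂ) s) (isChromaticPoly_G s hsne) (2 - v) ?_
  · rw [hs']; simp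
  · rw [hs']; simp [Xw]
  · rw [hs']; simp [Xw]
  · have h1 := map_Ptot (Polynomial.evalRingHom (2 - v)) (Polynomial.X : Polynomial ℂ) s
    simp only [Polynomial.coe_evalRingHom, Polynomial.eval_X] at h1
    rw [← h1, hs, Ptot_bw]
    have h2 : (List.map (fun g => g + 1) (0 :: gs)).sum = n' + 3 + b * (m + 1) := by
      rw [hgs]
      simp only [List.map_cons, List.map_append, List.map_replicate, List.sum_cons,
        List.sum_append, List.sum_replicate, smul_eq_mul]
      ring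
    have h3 : (List.map (fun g => Ac (2 - v) (g + 1)) (0 :: gs)).prod =
        (Ac (2 - v) 1) ^ (n' + 3) * (Ac (2 - v) (m + 1)) ^ b := by
      rw [hgs]
      simp only [List.map_cons, List.map_append, List.map_replicate, List.prod_cons,
        List.prod_append, List.prod_replicate, zero_add]
      ring
    have h4 : Ac (2 - v) 1 = -(1 + v) := by simp only [Ac]; ring
    have h5 : Ac (2 - v) (m + 1) = (-1) ^ (m + 1) * ((1 - v ^ (m + 2)) / (1 - v)) := by
      have h6 := Ac_closed (2 - v) (m + 1)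
      have h7 : (2 - v - 1 : ℂ) = 1 - v := by ring
      have h8 : (2 - v - 2 : ℂ) = -v := by ring
      rw [h7, h8] at h6
      rw [mul_div_assoc', eq_div_iff hv]
      rw [mul_comm] at h6
      rw [h6, neg_pow]
      ring
    rw [h2, h3, h4, h5]
    have h8 : (2 - v - 2 : ℂ) = -v := by ring
    rw [h8, neg_pow v, neg_pow (1 + v), mul_pow ((-1 : ℂ) ^ (m + 1)), ← pow_mul]
    have h9 : ((-1 : ℂ)) ^ (n' + 3 + b * (m + 1)) = (-1) ^ (n' + 3) * (-1) ^ ((m + 1) * b) := by
      rw [pow_add, mul_comm b]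
    rw [h9]
    linear_combination (2 - v) * (-1) ^ (n' + 3) * (-1) ^ ((m + 1) * b) * h

theorem dense_mid (z : ℂ) (h1 : 1 < ‖z - 1‖) (h2 : ‖z - 2‖ < 1) (h3 : 1 < ‖z - 3‖) :
    z ∈ closure rootSet := by
  rw [Metric.mem_closure_iff]
  intro ε hε
  have e1 : ‖2 - z‖ < 1 := by rw [norm_sub_rev]; exact h2
  have e2 : 1 < ‖1 - (2 - z)‖ := by
    rw [show 1 - (2 - z) = z - 1 by ring]; exact h1
  have e3 : 1 < ‖1 + (2 - z)‖ := by
    rw [show 1 + (2 - z) = -(z - 3) by ring, norm_neg]; exact h3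
  obtain ⟨n, b, m, v, hn, hv, hv1, h⟩ := exists_zero (2 - z) e1 e2 e3 ε hε
  refine ⟨2 - v, root_of_closed n b m v hn ?_ h, ?_⟩
  · intro h'
    have : v = 1 := by linear_combination -h'
    rw [this, norm_one] at hv1
    exact lt_irrefl _ hv1
  · rw [dist_eq_norm, show z - (2 - v) = v - (2 - z) by ring]
    exact hv

/-- a point which is approached along a ray -/
lemma mem_of_ray (K : Set ℂ) (hK : IsClosed K) (c z : ℂ)
    (h : ∀ᶠ s : ℝ in 𝓝[>] 1, c + s * (z - c) ∈ K) : z ∈ K := by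
  have h1 : Tendsto (fun s : ℝ => c + s * (z - c)) (𝓝[>] 1) (𝓝 z) := by
    have : Continuous (fun s : ℝ => c + (s : ℂ) * (z - c)) := by fun_prop
    have h2 := this.tendsto 1
    have h3 : c + ((1 : ℝ) : ℂ) * (z - c) = z := by push_cast; ring
    rw [h3] at h2
    exact h2.mono_left nhdsWithin_le_nhds
  exact hK.mem_of_tendsto h1 h

lemma ineq_D (z : ℂ) (h1 : 1 < ‖z - 1‖) (h2 : ‖z - 2‖ < 1) (h3 : ‖z - 3‖ ≤ 1) :
    ‖z - 3‖ < ‖z ^ 2 - 3 * z + 3‖ := by
  have e1 : 1 < (z.re - 1) ^ 2 + z.im ^ 2 := by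
    have := Complex.sq_norm (z - 1)
    rw [Complex.normSq_apply] at this
    simp only [sub_re, one_re, sub_im, one_im, sub_zero] at this
    nlinarith
  have e2 : (z.re - 2) ^ 2 + z.im ^ 2 < 1 := by
    have := Complex.sq_norm (z - 2)
    rw [Complex.normSq_apply] at this
    simp only [sub_re, sub_im, re_ofNat, im_ofNat, sub_zero] at this
    have := norm_nonneg (z - 2)
    nlinarith
  have e3 : (z.re - 3) ^ 2 + z.im ^ 2 ≤ 1 := by
    have := Complex.sq_norm (z - 3)
    rw [Complex.normSq_apply] at this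
    simp only [sub_re, sub_im, re_ofNat, im_ofNat, sub_zero] at this
    have := norm_nonneg (z - 3)
    nlinarith
  apply lt_of_pow_lt_pow_left₀ 2 (norm_nonneg _)
  rw [Complex.sq_norm, Complex.sq_norm, Complex.normSq_apply, Complex.normSq_apply]
  have f1 : (z ^ 2 - 3 * z + 3).re = z.re ^ 2 - z.im ^ 2 - 3 * z.re + 3 := by
    simp [pow_two]
  have f2 : (z ^ 2 - 3 * z + 3).im = z.im * (2 * z.re - 3) := by
    simp [pow_two]; ring
  have f3 : (z - 3).re = z.re - 3 := by simp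
  have f4 : (z - 3).im = z.im := by simp
  rw [f1, f2, f3, f4]
  obtain ⟨a, ha'⟩ : ∃ a : ℝ, z.re = a + 2 := ⟨z.re - 2, by ring⟩
  set y := z.im
  rw [ha'] at e1 e2 e3 ⊢
  have ha0 : 0 < a := by nlinarith
  have hy2 : y ^ 2 ≤ 2 * a - a ^ 2 := by nlinarith
  have ha1 : a < 1 := by nlinarith [sq_nonneg y]
  have g1 : 1 - a < (a + 2) ^ 2 - y ^ 2 - 3 * (a + 2) + 3 := by nlinarith
  have g2 : (1 - a) ^ 2 < ((a + 2) ^ 2 - y ^ 2 - 3 * (a + 2) + 3) ^ 2 := by
    have : 0 < 1 - a := by linarith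
    nlinarith
  have g3 : y ^ 2 ≤ (y * (2 * (a + 2) - 3)) ^ 2 := by
    have : 1 ≤ (2 * (a + 2) - 3) ^ 2 := by nlinarith
    rw [mul_pow]
    nlinarith [sq_nonneg y]
  nlinarith

theorem dense_ext (z : ℂ) (h1 : 1 < ‖z - 1‖) : z ∈ closure rootSet := by
  rcases lt_trichotomy ‖z - 2‖ 1 with h2 | h2 | h2
  · rcases lt_or_ge 1 ‖z - 3‖ with h3 | h3
    · exact dense_mid z h1 h2 h3
    · exact LibChromRoots.dense_D z (ineq_D z h1 h2 h3)
  · apply mem_of_ray _ isClosed_closure 2 z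
    have hc : Continuous (fun s : ℝ => ‖2 + (s : ℂ) * (z - 2) - 1‖) := by fun_prop
    have h4 : ∀ᶠ s : ℝ in 𝓝 1, 1 < ‖2 + (s : ℂ) * (z - 2) - 1‖ := by
      apply hc.tendsto 1 |>.eventually_const_lt
      rw [show (2 : ℂ) + ((1 : ℝ) : ℂ) * (z - 2) - 1 = z - 1 by push_cast; ring]
      exact h1
    filter_upwards [h4.filter_mono nhdsWithin_le_nhds, self_mem_nhdsWithin] with s hs hs1
    apply dense_outside _ hs
    have hs1' : (1 : ℝ) < s := hs1
    rw [show (2 : ℂ) + (s : ℂ) * (z - 2) - 2 = s * (z - 2) by ring, norm_mul, h2, norm_real,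
      Real.norm_of_nonneg (by linarith)]
    linarith
  · exact dense_outside z h1 h2

theorem dense_ext_closed (z : ℂ) (h1 : 1 ≤ ‖z - 1‖) : z ∈ closure rootSet := by
  apply mem_of_ray _ isClosed_closure 1 z
  filter_upwards [self_mem_nhdsWithin] with s hs1
  have hs1' : (1 : ℝ) < s := hs1
  apply dense_ext
  rw [show (1 : ℂ) + (s : ℂ) * (z - 1) - 1 = s * (z - 1) by ring, norm_mul, norm_real,
      Real.norm_of_nonneg (by linarith)]
  nlinarith

end Pool.Agent.Ch4
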